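import Pool.Agent.Lib.MP_28303a_al.TT.Rows
import Pool.Agent.Lib.MP_28303a_al.TT.H91.Sub

/-! # FOK: the condition for the second tree -/

set_option autoImplicit false
set_option linter.unusedSectionVars false
set_option linter.unusedVariables false

namespace Pool.Agent.NegK.TT.H5

open Pool.Agent.NegK.TW Matrix MonoidAlgebra

universe u

/-- The property `P2` is invariant under conjugation. -/
theorem p2_conj {Γ V' : Type u} [Group Γ] [MulAction Γ V'] (g : Γ) (H : Subgroup Γ)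
    (hP : P2 V' H) : P2 V' (H.map (MulAut.conj g).toMonoidHom) := by
  intro x
  have hmem : ∀ y : (H.map (MulAut.conj g).toMonoidHom ⊓ MulAction.stabilizer Γ x : Subgroup Γ),
      (MulAut.conj g⁻¹ : MulAut Γ) (y : Γ) ∈
        (H ⊓ MulAction.stabilizer Γ (g⁻¹ • x) : Subgroup Γ) := by
    rintro ⟨y, hy, hy'⟩
    obtain ⟨h, hh, rfl⟩ := Subgroup.mem_map.1 hy
    have e : (MulAut.conj g⁻¹ : MulAut Γ) ((MulAut.conj g).toMonoidHom h) = h := by
      simp [mul_assoc]
    show (MulAut.conj g⁻¹ : MulAut Γ) ((MulAut.conj g).toMonoidHom h) ∈ _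
    rw [e]
    refine ⟨hh, ?_⟩
    show h • g⁻¹ • x = g⁻¹ • x
    have h1 : (MulAut.conj g).toMonoidHom h • x = x := hy'
    have h2 : (MulAut.conj g).toMonoidHom h = g * h * g⁻¹ := rfl
    rw [h2, mul_smul, mul_smul] at h1
    exact eq_inv_smul_iff.2 h1
  refine H91.inRC_of_injective (((MulAut.conj g⁻¹ : MulAut Γ).toMonoidHom.comp
    (Subgroup.subtype _)).codRestrict _ hmem) ?_ (hP (g⁻¹ • x))
  intro y y' h
  have h1 : (MulAut.conj g⁻¹ : MulAut Γ) (y : Γ) = (MulAut.conj g⁻¹ : MulAut Γ) (y' : Γ) :=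
    congrArg Subtype.val h
  exact Subtype.ext ((MulAut.conj g⁻¹ : MulAut Γ).injective h1)

/-- FOK. -/
theorem fok (hfn : Fn2Statement.{u}) : FokStatement.{u} := by
  intro k Γ V' _ _ _ G' hT hk
  refine ⟨p2_conj, ?_⟩
  intro S hS D _ J _ _ dg μ d hμ hP
  obtain ⟨E, hE, T, hTG⟩ := H19.tre' Γ V' G' hT
  have hne : Nonempty V' := hT.tree.connected.nonempty
  obtain ⟨b⟩ := hne
  have hL : RegularRing (LaurentPolynomial k) := H78.lreg H50.ext k hk
  refine hfn S hS k Γ D V' E T b (H12.subt Γ V' E G' T hT.tree hTG b) J dg μ d hμ ?_ ?_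
  · intro j x
    exact ⟨hP j x k hk, hP j x _ hL⟩
  · intro j e
    have h1 : MulAction.stabilizer Γ (dg j) ⊓ MulAction.stabilizer Γ e ≤
        MulAction.stabilizer Γ (dg j) ⊓ MulAction.stabilizer Γ (T.o e) := by
      refine inf_le_inf le_rfl fun g hg => ?_
      show g • T.o e = T.o e
      rw [← T.o_smul, show g • e = e from hg]
    have h2 := H91.inRC_mono h1 (hP j (T.o e))
    exact ⟨h2 k hk, h2 _ hL⟩

end Pool.Agent.NegK.TT.H5
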